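import Mathlib

set_option autoImplicit false

namespace Pool.Agent.Results.MP_05a6d5_al.Sub

open Polynomial

/-- The subtractive closure of an ideal of a commutative semiring. -/
def scl {S : Type} [CommSemiring S] (I : Ideal S) : Ideal S where
  carrier := {h | ∃ i ∈ I, h + i ∈ I}
  zero_mem' := ⟨0, I.zero_mem, by simp⟩
  add_mem' := fun ⟨i, hi, h⟩ ⟨j, hj, h'⟩ =>
    ⟨i + j, I.add_mem hi hj, add_add_add_comm _ _ i j ▸ I.add_mem h h'⟩
  smul_mem' := fun c _ ⟨i, hi, h⟩ => ⟨c • i, I.smul_mem c hi, smul_add c _ i ▸ I.smul_mem c h⟩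

abbrev S : Type := MvPolynomial (Fin 3) ℕ

noncomputable def ψ : S →+* ℕ[X] := MvPolynomial.eval₂Hom C fun _ => X

noncomputable def ε : ℕ[X] →+* ℤ := eval₂RingHom (Nat.castRingHom ℤ) (-1)

theorem odd (p : ℕ[X]) (h : ε p = 0) (h0 : p.coeff 0 ≠ 0) : ∃ j, Odd j ∧ p.coeff j ≠ 0 := by
  by_contra hc
  push Not at hc
  rw [ε, coe_eval₂RingHom, eval₂_eq_sum, Polynomial.sum] at h
  refine (Finset.sum_pos' (fun j hj => ?_) ⟨0, mem_support_iff.2 h0, by simpa using h0.bot_lt⟩).ne' h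
  rw [(Nat.not_odd_iff_even.1 fun ho => mem_support_iff.1 hj (hc j ho)).neg_one_pow]
  simp

theorem le (p q : ℕ[X]) (i j : ℕ) : p.coeff i * q.coeff j ≤ (p * q).coeff (i + j) := by
  rw [coeff_mul]
  exact Finset.single_le_sum (f := fun x : ℕ × ℕ => p.coeff x.1 * q.coeff x.2)
    (fun _ _ => Nat.zero_le _) (a := (i, j)) (by simp)

theorem result : ∃ I J : Ideal (MvPolynomial (Fin 3) ℕ), scl I * scl J ≠ scl (I * J) := by
  set x : S := MvPolynomial.X 0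
  refine ⟨Ideal.span {1 + x}, Ideal.span {1 + x}, fun h => ?_⟩
  have h1 : 3 + 4 * x + x ^ 4 ∈ scl (Ideal.span {1 + x} * Ideal.span {1 + x}) := by
    rw [Ideal.span_singleton_mul_span_singleton]
    exact ⟨2 * x * ((1 + x) * (1 + x)), Ideal.mem_span_singleton'.2 ⟨_, rfl⟩,
      Ideal.mem_span_singleton'.2 ⟨x ^ 2 + 3, by ring⟩⟩
  have h2 : ∀ p ∈ scl (Ideal.span {1 + x}), ε (ψ p) = 0 := by
    have : ∀ p ∈ Ideal.span {1 + x}, ε (ψ p) = 0 := fun p hp => by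
      obtain ⟨c, rfl⟩ := Ideal.mem_span_singleton'.1 hp
      simp [x, ψ, ε]
    rintro p ⟨i, hi, hp⟩
    simpa [this i hi] using this _ hp
  have h3 : ∀ f ∈ scl (Ideal.span {1 + x}) * scl (Ideal.span {1 + x}), (ψ f).coeff 0 ≠ 0 →
      ∃ j, (j = 2 ∨ Odd j ∧ j ≠ 1) ∧ (ψ f).coeff j ≠ 0 := by
    intro f hf
    refine Submodule.mul_induction_on hf (fun p hp q hq h0 => ?_) fun p q hp hq h0 => ?_
    · rw [map_mul] at h0 ⊢
      rw [mul_coeff_zero, mul_ne_zero_iff] at h0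
      obtain ⟨i, hi, hi'⟩ := odd _ (h2 p hp) h0.1
      obtain ⟨j, hj, hj'⟩ := odd _ (h2 q hq) h0.2
      by_cases i1 : i = 1
      · by_cases j1 : j = 1
        · subst i1 j1
          exact ⟨2, Or.inl rfl, ((mul_ne_zero hi' hj').bot_lt.trans_le (le _ _ 1 1)).ne'⟩
        · exact ⟨0 + j, Or.inr (by simpa using ⟨hj, j1⟩),
            ((mul_ne_zero h0.1 hj').bot_lt.trans_le (le _ _ 0 j)).ne'⟩
      · exact ⟨i, Or.inr ⟨hi, i1⟩, ((mul_ne_zero hi' h0.2).bot_lt.trans_le (le _ _ i 0)).ne'⟩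
    · simp only [map_add, coeff_add] at h0 ⊢
      by_cases hp0 : (ψ p).coeff 0 = 0
      · exact (hq (by omega)).imp fun j h => ⟨h.1, by omega⟩
      · exact (hp hp0).imp fun j h => ⟨h.1, by omega⟩
  have e : ψ (3 + 4 * x + x ^ 4) = C 3 + C 4 * X + X ^ 4 := by simp [x, ψ]
  obtain ⟨j, hj, h4⟩ := h3 _ (h ▸ h1) (by simp [e])
  refine h4 ?_
  rw [e, coeff_add, coeff_add, coeff_C, coeff_C_mul, coeff_X, coeff_X_pow]
  rcases hj with rfl | ⟨⟨k, rfl⟩, h⟩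
  · simp
  · rw [if_neg (by omega), if_neg (by omega), if_neg (by omega)]
    rfl

end Pool.Agent.Results.MP_05a6d5_al.Sub
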